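import Pool.Agent.Lib.MP_ae024f_co.DS.All

/-!
# Sets of density more than one half that tile the integers together with their reflections
-/

set_option autoImplicit false

namespace Pool.Agent.Results.MP_ae024f_co.DenseSets

open MPae024f MPae024f.DS

/-- `A` forms a monohedral tiling of `ℤ`: there is a partition of `ℤ` into sets each of which is
a translate `t + A` of `A` or a translate `t + (-A)` of `-A`. -/
def FormsMonohedralTiling (A : Set ℤ) : Prop :=
  ∃ parts : Set (Set ℤ), Setoid.IsPartition parts ∧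
    ∀ S ∈ parts, ∃ t : ℤ, S = {p | ∃ a ∈ A, p = t + a} ∨ S = {p | ∃ a ∈ A, p = t + -a}

/-- `B` is a complete residue system modulo `M`: every integer is congruent modulo `M` to exactly
one element of `B`. -/
def IsCompleteResidueSystem (M : ℤ) (B : Set ℤ) : Prop :=
  ∀ x : ℤ, ∃! b : ℤ, b ∈ B ∧ M ∣ x - b

theorem crs_of_surj (A : Finset ℤ) (hA : A.Nonempty) (f : Bool → ℤ → ℤ) (B : Set ℤ)
    (hB : ∀ b, b ∈ B ↔ ∃ s a, a ∈ A ∧ b = f s a)
    (h : ∀ m : ℤ, ∃ s a, a ∈ A ∧ (2 * (A.card : ℤ)) ∣ m - f s a) :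
    IsCompleteResidueSystem (2 * A.card) B := by
  have hinj := inj_of_surj (Finset.card_pos.2 hA) A rfl f h
  intro x
  obtain ⟨s, a, ha, hd⟩ := h x
  refine ⟨f s a, ⟨(hB _).2 ⟨s, a, ha, rfl⟩, hd⟩, ?_⟩
  rintro b ⟨hb, hd'⟩
  obtain ⟨s', a', ha', rfl⟩ := (hB b).1 hb
  obtain ⟨h1, h2⟩ := hinj s' a' s a ha' ha (by
    have := dvd_sub hd hd'
    rwa [show x - f s a - (x - f s' a') = f s' a' - f s a by ring] at this)
  rw [h1, h2]

theorem two_iff (A : Finset ℤ) (hA : A.Nonempty) (t : ℤ) :
    Two A.card t (fun a => a ∈ A) ↔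
      IsCompleteResidueSystem (2 * A.card) {p | p ∈ A ∨ p - t ∈ A} := by
  constructor
  · intro h
    refine crs_of_surj A hA (fun s a => if s = true then a else a + t) _ ?_ ?_
    · intro b
      constructor
      · rintro (h1 | h1)
        · exact ⟨true, b, h1, by simp⟩
        · exact ⟨false, b - t, h1, by simp⟩
      · rintro ⟨s, a, ha, rfl⟩
        cases s
        · right
          simp only [Bool.false_eq_true, if_false]
          rwa [show a + t - t = a by ring]
        · left
          simpa using ha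
    · intro m
      obtain ⟨a, ha, hd | hd⟩ := h m
      · exact ⟨true, a, ha, by simpa using hd⟩
      · exact ⟨false, a, ha, by simpa using hd⟩
  · intro h m
    obtain ⟨b, ⟨hb | hb, hd⟩, -⟩ := h m
    · exact ⟨b, hb, Or.inl hd⟩
    · exact ⟨b - t, hb, Or.inr (by rwa [show m - (b - t + t) = m - b by ring])⟩

theorem mir_iff (A : Finset ℤ) (hA : A.Nonempty) (t : ℤ) :
    Mir A.card t (fun a => a ∈ A) ↔
      IsCompleteResidueSystem (2 * A.card) {p | p ∈ A ∨ t - p ∈ A} := by
  constructor
  · intro h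
    refine crs_of_surj A hA (fun s a => if s = true then a else t - a) _ ?_ ?_
    · intro b
      constructor
      · rintro (h1 | h1)
        · exact ⟨true, b, h1, by simp⟩
        · exact ⟨false, t - b, h1, by simp⟩
      · rintro ⟨s, a, ha, rfl⟩
        cases s
        · right
          simp only [Bool.false_eq_true, if_false]
          rwa [show t - (t - a) = a by ring]
        · left
          simpa using ha
    · intro m
      obtain ⟨a, ha, hd | hd⟩ := h m
      · exact ⟨true, a, ha, by simpa using hd⟩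
      · exact ⟨false, a, ha, by simpa using hd⟩
  · intro h m
    obtain ⟨b, ⟨hb | hb, hd⟩, -⟩ := h m
    · exact ⟨b, hb, Or.inl hd⟩
    · exact ⟨t - b, hb, Or.inr (by rwa [show m - (t - (t - b)) = m - b by ring])⟩

/-- Let `A` be a finite set of integers with `max A - min A ≤ 2 |A| - 2`. For all integers `m` and
`g ≠ 0` the set `m + g A` forms a monohedral tiling of `ℤ` if and only if for some `t` the set
`A ∪ (A + t)` or the set `A ∪ (t - A)` is a complete residue system modulo `2 |A|`. -/
theorem result (A : Finset ℤ) (hA : A.Nonempty)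
    (hd : ∀ a ∈ A, ∀ b ∈ A, b - a ≤ 2 * A.card - 2) (m g : ℤ) (hg : g ≠ 0) :
    FormsMonohedralTiling {p | ∃ a ∈ A, p = m + g * a} ↔
      ∃ t : ℤ, IsCompleteResidueSystem (2 * A.card) {p | p ∈ A ∨ p - t ∈ A} ∨
        IsCompleteResidueSystem (2 * A.card) {p | p ∈ A ∨ t - p ∈ A} := by
  have hfin : {p : ℤ | ∃ a ∈ A, p = m + g * a}.Finite := by
    refine (A.finite_toSet.image (fun c => m + g * c)).subset ?_
    rintro x ⟨c, hc, rfl⟩
    exact ⟨c, hc, rfl⟩
  have hne : {p : ℤ | ∃ a ∈ A, p = m + g * a}.Nonempty := by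
    obtain ⟨a, ha⟩ := hA
    exact ⟨_, a, ha, rfl⟩
  have h1 : FormsMonohedralTiling {p : ℤ | ∃ a ∈ A, p = m + g * a} ↔
      ∃ P Q, PQ (A : Set ℤ) P Q := by
    rw [← pq_scale m g hg]
    constructor
    · intro h
      exact pq_of_partition hfin hne h
    · rintro ⟨P, Q, h⟩
      exact partition_of_pq hne h
  have h2 := dense A hA (m := A.min' hA) (n := 2 * A.card - 1)
    (fun a ha => ⟨A.min'_le a ha, by
      have := hd _ (A.min'_mem hA) a ha
      omega⟩) (by omega)
  rw [h1, h2]
  simp only [two_iff A hA, mir_iff A hA]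

end Pool.Agent.Results.MP_ae024f_co.DenseSets
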