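import Pool.Agent.Lib.MP_ae024f_co.QuadResult

/-!
# Periodic tilings by a finite set and its reflection: both orientations occur equally often
-/

set_option autoImplicit false

namespace Pool.Agent.Results.MP_ae024f_co.EqualFrequency

open MPae024f Finset

/-- `P` and `Q` are the translation sets of a tiling of `ℤ` by `A` and `-A`: every integer is
`p + a` (`p ∈ P`) or `q - a` (`q ∈ Q`) with `a ∈ A` in exactly one way. -/
def IsTiling (A : Finset ℤ) (P Q : Set ℤ) : Prop :=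
  ∀ n : ℤ, ∃! s : Bool × ℤ, s.2 ∈ A ∧ (if s.1 = true then n - s.2 ∈ P else n + s.2 ∈ Q)

open Classical in
theorem result (A : Finset ℤ) (N : ℕ) (P Q : Set ℤ) (hA : 2 ≤ A.card) (hN : 0 < N)
    (h : IsTiling A P Q) (hP : ∀ i : ℤ, i + N ∈ P ↔ i ∈ P) (hQ : ∀ i : ℤ, i + N ∈ Q ↔ i ∈ Q)
    (hz : ∀ z : ℂ, z ^ N = 1 → z ≠ 1 → ∑ a ∈ A, z ^ a ≠ 0) :
    2 * A.card * ((Ico (0 : ℤ) N).filter fun t => t ∈ P).card = N ∧
      2 * A.card * ((Ico (0 : ℤ) N).filter fun t => t ∈ Q).card = N ∧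
      ∀ d : ℤ, ((Ico (0 : ℤ) N).filter fun t => t ∈ P ∧ t + d ∈ P).card =
        ((Ico (0 : ℤ) N).filter fun t => t ∈ Q ∧ t + d ∈ Q).card := by
  have : NeZero N := ⟨hN.ne'⟩
  exact freq_int (P := fun t => t ∈ P) (Q := fun t => t ∈ Q) h hP hQ hA hz

end Pool.Agent.Results.MP_ae024f_co.EqualFrequency
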