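import Pool.Agent.Lib.MP_ae024f_co.QuadResult
import Pool.Agent.Lib.MP_ae024f_co.R2.Q2f

/-!
# Tilings of the integers by a four-element set and its reflection
-/

set_option autoImplicit false

namespace Pool.Agent.Results.MP_ae024f_co.FourSets

open MPae024f Finset

/-- `A` forms a monohedral tiling of `ℤ`: there is a partition of `ℤ` into sets each of which is
a translate `t + A` of `A` or a translate `t + (-A)` of `-A`. -/
def FormsMonohedralTiling (A : Set ℤ) : Prop :=
  ∃ parts : Set (Set ℤ), Setoid.IsPartition parts ∧
    ∀ S ∈ parts, ∃ t : ℤ, S = {p | ∃ a ∈ A, p = t + a} ∨ S = {p | ∃ a ∈ A, p = t + -a}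

/-- A four-element set which does not form a monohedral tiling is `{p, q, u, w}` with
`v_2 (p - u) < v_2 (u - w) < v_2 (p - q)`, and it does not form one if moreover
`p - q = ± 2 (u - w)`. -/
theorem result (A : Finset ℤ) (hA : A.card = 4) :
    (FormsMonohedralTiling (A : Set ℤ) ∨
      ∃ p q u w : ℤ, A = {p, q, u, w} ∧
        padicValInt 2 (p - u) < padicValInt 2 (u - w) ∧
        padicValInt 2 (u - w) < padicValInt 2 (p - q)) ∧
    ∀ p q u w : ℤ, A = {p, q, u, w} → padicValInt 2 (p - u) < padicValInt 2 (u - w) →
      (p - q = 2 * (u - w) ∨ p - q = -2 * (u - w)) → ¬ FormsMonohedralTiling (A : Set ℤ) := by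
  constructor
  · let e := A.equivFinOfCardEq hA
    let y : Fin 4 → ℤ := fun i => (e.symm i : ℤ)
    have hy : Function.Injective y := fun i j h => e.symm.injective (Subtype.ext h)
    have hAy : A = {y 0, y 1, y 2, y 3} := by
      ext p
      simp only [mem_insert, mem_singleton]
      constructor
      · intro hp
        have h1 : y (e ⟨p, hp⟩) = p := by simp [y]
        rw [← h1]
        generalize e ⟨p, hp⟩ = i
        fin_cases i <;> simp
      · rintro (rfl | rfl | rfl | rfl) <;> exact (e.symm _).2
    have hne : ∀ i j : Fin 4, i ≠ j → y i ≠ y j := fun i j h h' => h (hy h')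
    have hA' : (A : Set ℤ) = {y 0, y 1, y 2, y 3} := by
      rw [hAy]
      simp
    rcases four _ (y 0) (y 1) (y 2) (y 3) (hne _ _ (by decide)) (hne _ _ (by decide))
      (hne _ _ (by decide)) (hne _ _ (by decide)) (hne _ _ (by decide)) (hne _ _ (by decide)) rfl
      with ⟨P, Q, h⟩ | ⟨p, q, u, w, e', f, g, hE, hef, hfg, he, hf, hg⟩
    · left
      rw [hA']
      exact partition_of_pq ⟨y 0, by simp⟩ h
    · right
      refine ⟨p, q, u, w, ?_, ?_, ?_⟩
      · have : (A : Set ℤ) = (({p, q, u, w} : Finset ℤ) : Set ℤ) := by
          rw [hA', hE]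
          simp
        exact_mod_cast this
      · rw [he.val, hf.val]
        exact hef
      · rw [hf.val, hg.val]
        exact hfg
  · intro p q u w hAe hv hr hT
    have hAs : (A : Set ℤ) = {p, q, u, w} := by
      rw [hAe]
      simp
    -- the four elements are different
    have card : ∀ x y z t : ℤ, ({x, y, z, t} : Finset ℤ) = A → x ≠ y ∧ x ≠ z ∧ x ≠ t ∧ y ≠ z ∧
        y ≠ t ∧ z ≠ t := by
      intro x y z t h
      have hc : ({x, y, z, t} : Finset ℤ).card = 4 := by rw [h]; exact hA
      have c3 : ∀ a b c : ℤ, ({a, b, c} : Finset ℤ).card ≤ 3 := fun a b c => card_le_three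
      refine ⟨?_, ?_, ?_, ?_, ?_, ?_⟩
      · rintro rfl
        have := c3 x z t
        rw [show ({x, x, z, t} : Finset ℤ) = {x, z, t} by ext; simp] at hc
        omega
      · rintro rfl
        have := c3 x y t
        rw [show ({x, y, x, t} : Finset ℤ) = {x, y, t} by
          ext; simp only [mem_insert, mem_singleton]; tauto] at hc
        omega
      · rintro rfl
        have := c3 x y z
        rw [show ({x, y, z, x} : Finset ℤ) = {x, y, z} by
          ext; simp only [mem_insert, mem_singleton]; tauto] at hc
        omega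
      · rintro rfl
        have := c3 x y t
        rw [show ({x, y, y, t} : Finset ℤ) = {x, y, t} by ext; simp] at hc
        omega
      · rintro rfl
        have := c3 x y z
        rw [show ({x, y, z, y} : Finset ℤ) = {x, y, z} by
          ext; simp only [mem_insert, mem_singleton]; tauto] at hc
        omega
      · rintro rfl
        have := c3 x y z
        rw [show ({x, y, z, z} : Finset ℤ) = {x, y, z} by ext; simp] at hc
        omega
    obtain ⟨h1, h2, h3, h4, h5, h6⟩ := card p q u w hAe.symm
    refine R2.not_tile h1 h2 h3 h4 h5 h6 hv hr ?_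
    rw [← hAs]
    exact pq_of_partition A.finite_toSet
      (Finset.card_pos.1 (by omega : 0 < A.card)).to_set hT

end Pool.Agent.Results.MP_ae024f_co.FourSets
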