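import Pool.Agent.Lib.MP_ae024f_co.R2.TwoScales

namespace Pool.Agent.Results.MP_ae024f_co.TwoScales

open MPae024f MPae024f.Sc

/-- `A` forms a monohedral tiling of `ℤ`: there is a partition of `ℤ` into sets each of which is
a translate `t + A` of `A` or a translate `t + (-A)` of `-A`. -/
def FormsMonohedralTiling (A : Set ℤ) : Prop :=
  ∃ parts : Set (Set ℤ), Setoid.IsPartition parts ∧
    ∀ S ∈ parts, ∃ t : ℤ, S = {x | ∃ a ∈ A, x = t + a} ∨ S = {x | ∃ a ∈ A, x = t + -a}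

/-- The union of the progressions `a, a + D, …, a + (p - 1) D` and `b, b + q D, …, b + (s - 1) q D`. -/
def twoProg (p s q : ℕ) (a b D : ℤ) : Set ℤ :=
  {x | (∃ i : ℕ, i < p ∧ x = a + i * D) ∨ ∃ i : ℕ, i < s ∧ x = b + i * (q * D)}

/-- The arithmetic condition, on `d` (the smaller difference) and `e` (the distance of the first
terms) after division by their greatest common divisor. -/
def Condition (p s q d e : ℤ) : Prop :=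
  (q = 1 ∧
    ((p = 2 * s ∧ (2 ≤ d ∨ s ∣ e)) ∨
     (p = 3 * s ∧ (2 ∣ d ∨
        (s ∣ e ∧ ¬ (d = 1 ∧ (e = -7 * s ∨ e = -3 * s ∨ e = 5 * s ∨ e = 9 * s))))) ∨
     (p ≠ 2 * s ∧ p ≠ 3 * s ∧ (2 ∣ d ∨ (p + s) ∣ e + s * d ∨
        ∃ u v : ℤ, 0 ≤ v ∧ v ≤ d ∧ (p + s) * u = e + 2 * s * v ∧ u ≠ v)))) ∨
  (q = 2 ∧
    ((∃ c, (c = p ∨ c = p + 1 ∨ c = 2 * p ∨ c = 2 * p + 1) ∧ 2 * (p + s) ∣ e - c * d) ∨
     (p = 2 * s ∧ (3 ∣ d ∨ p ∣ e ∨ p ∣ e - d)) ∨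
     (p = s ∧ ((¬ 2 ∣ p ∧ 2 ∣ d) ∨ p ∣ e ∨ p ∣ e - d)) ∨
     (s = 2 * p ∧ ¬ 2 ∣ p ∧ 3 ∣ d))) ∨
  (3 ≤ q ∧
    ((p = 2 * s ∧ Int.gcd p q ≤ 2 ∧ 3 ∣ d) ∨
     (p = s ∧ Int.gcd p q = 1 ∧ 2 ∣ d) ∨
     (s = 2 * p ∧ Int.gcd p q = 1 ∧ 3 ∣ d)))

theorem result (p s q : ℕ) (a b D : ℤ)
    (hpsq : (q = 1 ∧ 1 ≤ s ∧ s ≤ p) ∨ (q = 2 ∧ 2 ≤ p ∧ 2 ≤ s) ∨ (3 ≤ q ∧ q ≤ p ∧ 2 ≤ s))
    (hD : 0 < D) (hdisj : ∀ i j : ℕ, i < p → j < s → a + i * D ≠ b + j * (q * D)) :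
    FormsMonohedralTiling (twoProg p s q a b D) ↔
      Condition p s q (D / Int.gcd D (b - a)) ((b - a) / Int.gcd D (b - a)) :=
  unreduced (by omega) hD hdisj (fun d e => Condition p s q d e) fun d e hd hde he =>
    class_q (by omega) hd hde he

end Pool.Agent.Results.MP_ae024f_co.TwoScales
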